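import Pool.Agent.H500.ME.Stm
import Pool.Agent.H199.HC.Cls

set_option autoImplicit false
set_option linter.unusedSectionVars false

/-!
# Project ME (helper500), part B1: weights of algebraic Hecke characters (helper870)

The lemmas on the purity of the type are those of `Pool.Agent.H337.HC.HeckeL`.
-/

namespace Pool.Agent.H870.ME.WT

open NumberField NumberField.Units NumberField.InfinitePlace Complex IsDedekindDomain Filter
open NumberField.Units.dirichletUnitTheorem (logSpace w₀ logEmbedding_component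
  sum_logEmbedding_component unitLattice_span_eq_top)
open Pool.Agent.H500.HC (TotPos InRay QBar)
open Pool.Agent.H500.ME (typU IsAlg at1 HasWt S_WT)
open Pool.Agent.Q92.AR (Dv Ray prin Cong Pos prin_apply)

section
variable {K : Type} [Field K] [NumberField K]

/-- a power of a unit is `≡ 1` modulo `N` -/
lemma unit_pow (N : ℕ) (hN : 0 < N) (u : (𝓞 K)ˣ) :
    ∃ k : ℕ, 0 < k ∧ (N : 𝓞 K) ∣ ((u : 𝓞 K)) ^ k - 1 := by
  have hne : Ideal.span {(N : 𝓞 K)} ≠ ⊥ := by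
    rw [Ne, Ideal.span_singleton_eq_bot]
    exact_mod_cast hN.ne'
  have hfin : Finite (𝓞 K ⧸ Ideal.span {(N : 𝓞 K)}) := Ideal.finiteQuotientOfFreeOfNeBot _ hne
  set f : (𝓞 K)ˣ →* (𝓞 K ⧸ Ideal.span {(N : 𝓞 K)})ˣ :=
    Units.map (Ideal.Quotient.mk (Ideal.span {(N : 𝓞 K)})).toMonoidHom with hf
  obtain ⟨k, hk, hk1⟩ := (isOfFinOrder_iff_pow_eq_one).1 (isOfFinOrder_of_finite (f u))
  refine ⟨k, hk, ?_⟩
  rw [← Ideal.mem_span_singleton, ← Ideal.Quotient.eq_zero_iff_mem, map_sub, map_pow, map_one,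
    sub_eq_zero]
  have h1 := congrArg Units.val hk1
  rw [Units.val_pow_eq_pow_val, Units.val_one] at h1
  exact h1

lemma unit_ne (u : (𝓞 K)ˣ) (φ : K →+* ℂ) : φ ((u : 𝓞 K) : K) ≠ 0 := by
  rw [Ne, map_eq_zero]
  exact_mod_cast u.ne_zero

/-- purity: if `∏ ‖φ u‖ ^ t φ = 1` for the units in a ray then `t φ + t φbar` is constant -/
lemma purity (t : (K →+* ℂ) → ℤ)
    (h : ∀ u : (𝓞 K)ˣ, ∑ φ : K →+* ℂ, (t φ : ℝ) * Real.log ‖φ ((u : 𝓞 K) : K)‖ = 0) :
    ∃ w : ℤ, ∀ φ : K →+* ℂ, t φ + t (ComplexEmbedding.conjugate φ) = w := by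
  classical
  set S : InfinitePlace K → ℤ := fun w =>
    t w.embedding + t (ComplexEmbedding.conjugate w.embedding) with hS
  have hSφ : ∀ φ : K →+* ℂ, S (InfinitePlace.mk φ) = t φ + t (ComplexEmbedding.conjugate φ) := by
    intro φ
    simp only [hS]
    rcases embedding_mk_eq φ with h1 | h1
    · rw [h1]
    · rw [h1]
      have h2 : ComplexEmbedding.conjugate (ComplexEmbedding.conjugate φ) = φ :=
        ComplexEmbedding.involutive_conjugate K φ
      rw [h2, add_comm]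
  have hconj : ∀ u : (𝓞 K)ˣ, ∑ φ : K →+* ℂ, (t (ComplexEmbedding.conjugate φ) : ℝ) *
      Real.log ‖φ ((u : 𝓞 K) : K)‖ = 0 := by
    intro u
    rw [← h u]
    refine Fintype.sum_equiv (Function.Involutive.toPerm _
      (ComplexEmbedding.involutive_conjugate K)) _ _ fun φ => ?_
    have h1 : ‖ComplexEmbedding.conjugate φ ((u : 𝓞 K) : K)‖ = ‖φ ((u : 𝓞 K) : K)‖ := by
      rw [ComplexEmbedding.conjugate_coe_eq, Complex.norm_conj]
    show _ = (t (ComplexEmbedding.conjugate φ) : ℝ) *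
      Real.log ‖ComplexEmbedding.conjugate φ ((u : 𝓞 K) : K)‖
    rw [h1]
  have hsum : ∀ u : (𝓞 K)ˣ, ∑ w : InfinitePlace K, (S w : ℝ) * (mult w * Real.log (w ((u : 𝓞 K) : K))) = 0 := by
    intro u
    have h1 : ∑ φ : K →+* ℂ, (S (InfinitePlace.mk φ) : ℝ) * Real.log (InfinitePlace.mk φ ((u : 𝓞 K) : K)) = 0 := by
      have h2 : ∀ φ : K →+* ℂ, (S (InfinitePlace.mk φ) : ℝ) * Real.log (InfinitePlace.mk φ ((u : 𝓞 K) : K)) =
          (t φ : ℝ) * Real.log ‖φ ((u : 𝓞 K) : K)‖ +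
          (t (ComplexEmbedding.conjugate φ) : ℝ) * Real.log ‖φ ((u : 𝓞 K) : K)‖ := by
        intro φ
        rw [hSφ, InfinitePlace.apply]
        push_cast
        ring
      rw [Finset.sum_congr rfl fun φ _ => h2 φ, Finset.sum_add_distrib, h u, hconj u, add_zero]
    rw [← Finset.sum_fiberwise (Finset.univ : Finset (K →+* ℂ)) (fun φ => InfinitePlace.mk φ)] at h1
    rw [← h1]
    refine Finset.sum_congr rfl fun w _ => ?_
    have h3 : ∀ φ ∈ Finset.univ.filter (fun φ : K →+* ℂ => InfinitePlace.mk φ = w),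
        (S (InfinitePlace.mk φ) : ℝ) * Real.log (InfinitePlace.mk φ ((u : 𝓞 K) : K)) =
        (S w : ℝ) * Real.log (w ((u : 𝓞 K) : K)) := by
      intro φ hφ
      rw [(Finset.mem_filter.1 hφ).2]
    rw [Finset.sum_congr rfl h3, Finset.sum_const, card_filter_mk_eq, nsmul_eq_mul]
    ring
  -- the functional
  set L : (logSpace K) →ₗ[ℝ] ℝ := ∑ w : {w : InfinitePlace K // w ≠ w₀},
    ((S w : ℝ) - S w₀) • (LinearMap.proj w : (logSpace K) →ₗ[ℝ] ℝ) with hL
  have hLap : ∀ x : logSpace K, L x = ∑ w : {w : InfinitePlace K // w ≠ w₀},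
      ((S w : ℝ) - S w₀) * x w := by
    intro x
    rw [hL, LinearMap.sum_apply]
    rfl
  have hL0 : ∀ u : (𝓞 K)ˣ, L (logEmbedding K (Additive.ofMul u)) = 0 := by
    intro u
    rw [hLap]
    have h1 : ∑ w : {w : InfinitePlace K // w ≠ w₀}, ((S w : ℝ) - S w₀) *
        logEmbedding K (Additive.ofMul u) w =
        ∑ w : {w : InfinitePlace K // w ≠ w₀}, (S w : ℝ) *
          (mult w.val * Real.log (w.val ((u : 𝓞 K) : K))) -
        (S w₀ : ℝ) * ∑ w : {w : InfinitePlace K // w ≠ w₀},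
          logEmbedding K (Additive.ofMul u) w := by
      rw [Finset.mul_sum, ← Finset.sum_sub_distrib]
      refine Finset.sum_congr rfl fun w _ => ?_
      rw [logEmbedding_component]
      ring
    rw [h1, sum_logEmbedding_component]
    have h2 := hsum u
    rw [Fintype.sum_eq_add_sum_subtype_ne _ w₀] at h2
    linarith
  have hker : ∀ x : logSpace K, L x = 0 := by
    have h1 : Submodule.span ℝ (unitLattice K : Set (logSpace K)) ≤ LinearMap.ker L := by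
      rw [Submodule.span_le]
      intro x hx
      obtain ⟨u, -, rfl⟩ := hx
      exact hL0 u.toMul
    rw [unitLattice_span_eq_top] at h1
    intro x
    exact LinearMap.mem_ker.1 (h1 Submodule.mem_top)
  have hconst : ∀ w : InfinitePlace K, S w = S w₀ := by
    intro w
    by_cases hw : w = w₀
    · rw [hw]
    · have h1 := hLap (Pi.single ⟨w, hw⟩ 1)
      rw [hker, Finset.sum_eq_single (⟨w, hw⟩ : {w : InfinitePlace K // w ≠ w₀})] at h1
      · rw [Pi.single_eq_same, mul_one] at h1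
        have h2 : (S w : ℝ) = S w₀ := by linarith
        exact_mod_cast h2
      · intro i _ hi
        rw [Pi.single_eq_of_ne hi, mul_zero]
      · intro hi
        exact absurd (Finset.mem_univ _) hi
  exact ⟨S w₀, fun φ => by rw [← hSφ, hconst]⟩


lemma prod_norm (x : 𝓞 K) :
    ∏ φ : K →+* ℂ, ‖φ (x : K)‖ = ((Ideal.absNorm (Ideal.span {x}) : ℕ) : ℝ) := by
  classical
  have h2 : ∏ φ : K →+* ℂ, ‖φ (x : K)‖ = ∏ w : InfinitePlace K, w (x : K) ^ mult w := by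
    rw [← Finset.prod_fiberwise (Finset.univ : Finset (K →+* ℂ)) (fun φ => InfinitePlace.mk φ)]
    refine Finset.prod_congr rfl fun w _ => ?_
    have h3 : ∀ φ ∈ Finset.univ.filter (fun φ : K →+* ℂ => InfinitePlace.mk φ = w),
        ‖φ (x : K)‖ = w (x : K) := by
      intro φ hφ
      rw [← (Finset.mem_filter.1 hφ).2, InfinitePlace.apply]
    rw [Finset.prod_congr rfl h3, Finset.prod_const, card_filter_mk_eq]
  rw [h2, prod_eq_abs_norm, Ideal.absNorm_span_singleton, ← Algebra.coe_norm_int]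
  push_cast
  rw [Nat.cast_natAbs]
  push_cast
  rfl

lemma emb_ne {x : 𝓞 K} (hx : x ≠ 0) (φ : K →+* ℂ) : φ (x : K) ≠ 0 := by
  rw [Ne, map_eq_zero]
  exact_mod_cast hx

lemma norm_sq (t : (K →+* ℂ) → ℤ) (w : ℤ)
    (hw : ∀ φ : K →+* ℂ, t φ + t (ComplexEmbedding.conjugate φ) = w) {x : 𝓞 K} (hx : x ≠ 0) :
    (∏ φ : K →+* ℂ, ‖φ (x : K)‖ ^ t φ) ^ 2 = ((Ideal.absNorm (Ideal.span {x}) : ℕ) : ℝ) ^ w := by
  have h1 : ∏ φ : K →+* ℂ, ‖φ (x : K)‖ ^ t (ComplexEmbedding.conjugate φ) =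
      ∏ φ : K →+* ℂ, ‖φ (x : K)‖ ^ t φ := by
    refine Fintype.prod_equiv (Function.Involutive.toPerm _
      (ComplexEmbedding.involutive_conjugate K)) _ _ fun φ => ?_
    show _ = ‖ComplexEmbedding.conjugate φ (x : K)‖ ^ t (ComplexEmbedding.conjugate φ)
    rw [ComplexEmbedding.conjugate_coe_eq, Complex.norm_conj]
  rw [sq]
  nth_rewrite 2 [← h1]
  rw [← Finset.prod_mul_distrib, ← prod_norm, ← Finset.prod_zpow]
  refine Finset.prod_congr rfl fun φ _ => ?_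
  rw [← zpow_add₀ (norm_ne_zero_iff.2 (emb_ne hx φ)), hw]


/-! ### Rays and divisors -/

lemma mem_ray {M : ℕ} {x : 𝓞 K} (hx : InRay M x) (X : Kˣ) (hX : (X : K) = x) : X ∈ Ray K M := by
  refine ⟨fun v _ => ?_, fun τ => ?_⟩
  · obtain ⟨c, hc⟩ := hx.2.1
    have h1 : (X : K) - 1 = (M : K) * (c : K) := by
      rw [hX]
      have h2 := congrArg (algebraMap (𝓞 K) K) hc
      rw [map_sub, map_one, map_mul, map_natCast] at h2
      exact h2
    rw [h1, map_mul]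
    exact mul_le_of_le_one_right' (v.valuation_le_one c)
  · rw [hX]
    exact hx.2.2 τ

lemma prin_eq {w : HeightOneSpectrum (𝓞 K)} {h : ℕ} {x : 𝓞 K} (X : Kˣ) (hX : (X : K) = x)
    (hx : w.asIdeal ^ h = Ideal.span {x}) : prin X = h • Finsupp.single w 1 := by
  classical
  ext v
  rw [prin_apply, hX, ← FractionalIdeal.coeIdeal_span_singleton, ← hx, FractionalIdeal.coeIdeal_pow,
    FractionalIdeal.count_pow, FractionalIdeal.count_maximal, Finsupp.smul_apply,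
    Finsupp.single_apply, nsmul_eq_mul]

lemma prin_unit (u : (𝓞 K)ˣ) (X : Kˣ) (hX : (X : K) = ((u : 𝓞 K) : K)) : prin X = 0 := by
  classical
  ext v
  rw [prin_apply, hX, ← FractionalIdeal.coeIdeal_span_singleton,
    Ideal.span_singleton_eq_top.2 u.isUnit, FractionalIdeal.coeIdeal_top,
    FractionalIdeal.count_one]
  rfl

lemma coprime_of {M : ℕ} {w : HeightOneSpectrum (𝓞 K)} (hw : (M : 𝓞 K) ∉ w.asIdeal) :
    IsCoprime w.asIdeal (Ideal.span {(M : 𝓞 K)}) := by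
  rw [Ideal.isCoprime_iff_sup_eq]
  by_contra h
  have h1 := w.isMaximal.eq_of_le h (le_sup_left (b := Ideal.span {(M : 𝓞 K)}))
  apply hw
  rw [h1]
  exact Ideal.mem_sup_right (Ideal.mem_span_singleton_self _)

lemma almost_all {M : ℕ} (hM : 0 < M) :
    ∀ᶠ w : HeightOneSpectrum (𝓞 K) in cofinite, (M : 𝓞 K) ∉ w.asIdeal := by
  rw [eventually_cofinite]
  have hne : Ideal.span {(M : 𝓞 K)} ≠ 0 := by
    rw [Ne, Ideal.zero_eq_bot, Ideal.span_singleton_eq_bot]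
    exact_mod_cast hM.ne'
  refine (Ideal.finite_factors hne).subset fun w hw => ?_
  rw [Set.mem_ofPred_eq, not_not] at hw
  rw [Set.mem_ofPred_eq, Ideal.dvd_span_singleton]
  exact hw

/-! ### The type at a complex embedding -/

/-- the embeddings into `ℂ` -/
noncomputable def eq (τ : QBar →+* ℂ) : (K →+* QBar) ≃ (K →+* ℂ) :=
  Equiv.ofBijective (fun σ => τ.comp σ) (by
    rw [Fintype.bijective_iff_injective_and_card]
    refine ⟨fun σ σ' h => ?_, ?_⟩
    · ext x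
      exact τ.injective (congrArg (fun f : K →+* ℂ => f x) h)
    · rw [NumberField.Embeddings.card, NumberField.Embeddings.card])

/-- the type as a function of the complex embeddings -/
noncomputable def tt (τ : QBar →+* ℂ) (t : (K →+* QBar) → ℤ) : (K →+* ℂ) → ℤ :=
  fun χ => t ((eq τ).symm χ)

lemma norm_typU (τ : QBar →+* ℂ) (t : (K →+* QBar) → ℤ) (X : Kˣ) :
    ‖τ ((typU t X : QBarˣ) : QBar)‖ = ∏ χ : K →+* ℂ, ‖χ (X : K)‖ ^ tt τ t χ := by
  have h1 : ((typU t X : QBarˣ) : QBar) = ∏ σ : K →+* QBar, (σ (X : K)) ^ t σ := by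
    unfold typU
    rw [Units.coe_prod]
    refine Finset.prod_congr rfl fun σ _ => ?_
    rw [Units.val_zpow_eq_zpow_val]
    rfl
  rw [h1, map_prod, norm_prod, ← Equiv.prod_comp (eq τ)]
  refine Finset.prod_congr rfl fun σ _ => ?_
  unfold tt
  rw [Equiv.symm_apply_apply, map_zpow₀, norm_zpow]
  rfl

lemma sum_tt (τ : QBar →+* ℂ) (t : (K →+* QBar) → ℤ) :
    ∑ χ : K →+* ℂ, tt τ t χ = ∑ σ : K →+* QBar, t σ := by
  rw [← Equiv.sum_comp (eq τ)]
  refine Finset.sum_congr rfl fun σ _ => ?_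
  unfold tt
  rw [Equiv.symm_apply_apply]

/-- the relation of the units -/
lemma units_zero {M : ℕ} (hM : 0 < M) {t : (K →+* QBar) → ℤ} {φ : Dv K →+ Additive QBarˣ}
    (hφ : IsAlg M t φ) (τ : QBar →+* ℂ) (u : (𝓞 K)ˣ) :
    ∑ χ : K →+* ℂ, (tt τ t χ : ℝ) * Real.log ‖χ ((u : 𝓞 K) : K)‖ = 0 := by
  obtain ⟨k, hk, hdvd⟩ := unit_pow M hM u
  have hval : ((u ^ (2 * k) : (𝓞 K)ˣ) : 𝓞 K) = (u : 𝓞 K) ^ (2 * k) := Units.val_pow_eq_pow_val _ _
  have hvK : (((u ^ (2 * k) : (𝓞 K)ˣ) : 𝓞 K) : K) = ((u : 𝓞 K) : K) ^ (2 * k) := by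
    rw [hval]
    exact map_pow (algebraMap (𝓞 K) K) _ _
  have hvray : InRay M ((u ^ (2 * k) : (𝓞 K)ˣ) : 𝓞 K) := by
    refine ⟨(u ^ (2 * k)).ne_zero, ?_, ?_⟩
    · have h1 : ((u ^ (2 * k) : (𝓞 K)ˣ) : 𝓞 K) - 1 = ((u : 𝓞 K) ^ k - 1) * ((u : 𝓞 K) ^ k + 1) := by
        rw [hval]
        ring
      rw [h1]
      exact Dvd.dvd.mul_right hdvd _
    · intro τ
      rw [hvK, map_pow, pow_mul]
      have h1 : τ ((u : 𝓞 K) : K) ≠ 0 := by
        rw [Ne, map_eq_zero]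
        exact_mod_cast u.ne_zero
      positivity
  set X : Kˣ := Units.map (algebraMap (𝓞 K) K : 𝓞 K →* K) (u ^ (2 * k)) with hXdef
  have hX : (X : K) = (((u ^ (2 * k) : (𝓞 K)ˣ) : 𝓞 K) : K) := rfl
  have h1 := hφ X (mem_ray hvray X hX)
  rw [prin_unit _ X hX, map_zero] at h1
  have h2 : typU t X = 1 := (Additive.ofMul.injective h1).symm
  have h3 := norm_typU τ t X
  rw [h2, Units.val_one, map_one, norm_one, hX] at h3
  have h4 : Real.log (∏ χ : K →+* ℂ, ‖χ (((u ^ (2 * k) : (𝓞 K)ˣ) : 𝓞 K) : K)‖ ^ tt τ t χ) = 0 := by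
    rw [← h3, Real.log_one]
  rw [Real.log_prod (fun χ _ => zpow_ne_zero _ (norm_ne_zero_iff.2 (unit_ne _ χ)))] at h4
  have h5 : ∀ χ : K →+* ℂ, Real.log (‖χ (((u ^ (2 * k) : (𝓞 K)ˣ) : 𝓞 K) : K)‖ ^ tt τ t χ) =
      (2 * k : ℕ) * ((tt τ t χ : ℝ) * Real.log ‖χ ((u : 𝓞 K) : K)‖) := by
    intro χ
    rw [hvK, map_pow, norm_pow, Real.log_zpow, Real.log_pow]
    ring
  rw [Finset.sum_congr rfl fun χ _ => h5 χ, ← Finset.mul_sum] at h4
  rcases mul_eq_zero.1 h4 with h6 | h6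
  · exfalso
    have h7 : 2 * k = 0 := by exact_mod_cast h6
    omega
  · exact h6

lemma weight {M : ℕ} (hM : 0 < M) {t : (K →+* QBar) → ℤ} {φ : Dv K →+ Additive QBarˣ}
    (hφ : IsAlg M t φ) (τ : QBar →+* ℂ) : ∃ m : ℤ,
    (m * Module.finrank ℚ K = 2 * ∑ σ, t σ) ∧
    ∀ᶠ w : HeightOneSpectrum (𝓞 K) in cofinite,
      ‖τ (at1 φ w)‖ ^ 2 = (Ideal.absNorm w.asIdeal : ℝ) ^ m := by
  obtain ⟨m, hm⟩ := purity (tt τ t) (units_zero hM hφ τ)
  refine ⟨m, ?_, ?_⟩
  · have h1 : ∑ χ : K →+* ℂ, tt τ t (ComplexEmbedding.conjugate χ) = ∑ χ : K →+* ℂ, tt τ t χ :=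
      Fintype.sum_equiv (Function.Involutive.toPerm _
        (ComplexEmbedding.involutive_conjugate K)) _ _ fun χ => rfl
    have h2 : ∑ χ : K →+* ℂ, (tt τ t χ + tt τ t (ComplexEmbedding.conjugate χ)) =
        ∑ _χ : K →+* ℂ, m := Finset.sum_congr rfl fun χ _ => hm χ
    rw [Finset.sum_add_distrib, h1, sum_tt, Finset.sum_const, Finset.card_univ,
      NumberField.Embeddings.card, nsmul_eq_mul] at h2
    linarith
  · obtain ⟨h, R, hh, -, hcl⟩ := Pool.Agent.H199.HC.Cls.main K M hM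
    filter_upwards [almost_all (K := K) hM] with w hw
    obtain ⟨x, hx, hwx⟩ := (hcl w.asIdeal w.ne_bot (coprime_of hw)).1
    have hxK : (x : K) ≠ 0 := by exact_mod_cast hx.1
    set X : Kˣ := Units.mk0 (x : K) hxK with hXdef
    have hX : (X : K) = x := rfl
    have h1 := hφ X (mem_ray hx X hX)
    rw [prin_eq X hX hwx, map_nsmul] at h1
    have h2 : (at1 φ w) ^ h = ((typU t X : QBarˣ) : QBar) := by
      have h3 := congrArg (fun a : Additive QBarˣ => ((a.toMul : QBarˣ) : QBar)) h1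
      exact h3
    have h3 : ‖τ (at1 φ w)‖ ^ h = ∏ χ : K →+* ℂ, ‖χ (x : K)‖ ^ tt τ t χ := by
      rw [← norm_pow, ← map_pow, h2, norm_typU, hX]
    have h4 := norm_sq (tt τ t) m hm hx.1
    rw [← h3, ← hwx, map_pow] at h4
    have h5 : (‖τ (at1 φ w)‖ ^ 2) ^ h = ((Ideal.absNorm w.asIdeal : ℝ) ^ m) ^ h := by
      rw [← pow_mul, mul_comm 2 h, pow_mul, h4]
      push_cast
      rw [← zpow_natCast, ← zpow_natCast, ← zpow_mul, ← zpow_mul, mul_comm]
    exact (pow_left_inj₀ (by positivity) (by positivity) hh.ne').1 h5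

end

/-- an embedding of the algebraic numbers -/
noncomputable def emb0 : QBar →+* ℂ :=
  letI : Algebra ℚ (AlgebraicClosure ℚ) := AlgebraicClosure.instAlgebra ℚ
  haveI : Algebra.IsAlgebraic ℚ (AlgebraicClosure ℚ) := AlgebraicClosure.isAlgebraic ℚ
  ((IsAlgClosed.lift : (AlgebraicClosure ℚ) →ₐ[ℚ] ℂ) : QBar →+* ℂ)

theorem main : S_WT := by
  intro L _ _ M t φ hM hφ
  obtain ⟨m, hm, -⟩ := weight hM hφ emb0
  refine ⟨m, fun τ => ?_, hm⟩
  obtain ⟨m', hm', h⟩ := weight hM hφ τ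
  have hd : (Module.finrank ℚ L : ℤ) ≠ 0 := by
    have : 0 < Module.finrank ℚ L := Module.finrank_pos
    omega
  have h1 : m' = m := mul_right_cancel₀ hd (hm'.trans hm.symm)
  rw [← h1]
  exact h

end Pool.Agent.H870.ME.WT

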